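import Pool.Agent.Lib.MP_de73ed_al.Cent
import Pool.Agent.Lib.MP_de73ed_al.CF
import Pool.Agent.Lib.MP_de73ed_al.Triv
import Pool.Agent.Lib.MP_de73ed_al.Elem
import Pool.Agent.Lib.MP_de73ed_al.Up
import Pool.Agent.Lib.MP_de73ed_al.Down
import Pool.Agent.Lib.MP_de73ed_al.Wr
import Pool.Agent.Lib.MP_de73ed_al.FPProps
import Pool.Agent.Lib.MP_de73ed_al.FS
import Pool.Agent.Lib.MP_de73ed_al.SRStep
import Pool.Agent.Lib.MP_de73ed_al.Cyc
import Pool.Agent.Lib.MP_de73ed_al.RGrp
import Pool.Agent.Lib.MP_de73ed_al.PLoc
import Pool.Agent.Lib.MP_de73ed_al.RAll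
import Pool.Agent.Lib.MP_de73ed_al.StepP
import Pool.Agent.Lib.MP_de73ed_al.StepQ
import Pool.Agent.Lib.MP_de73ed_al.APart
import Pool.Agent.Lib.MP_de73ed_al.BPart
import Pool.Agent.Lib.MP_de73ed_al.SCl
import Pool.Agent.Lib.MP_de73ed_al.SLoc
import Pool.Agent.Lib.MP_de73ed_al.SProd
import Pool.Agent.Lib.MP_de73ed_al.SSup
import Pool.Agent.Lib.MP_de73ed_al.Fwd
import Pool.Agent.Lib.MP_de73ed_al.Gen

set_option linter.all false

/-!
The superradical local formations of finite soluble groups.
-/

namespace Pool.Agent.Results.MP_de73ed_al.SolubleCase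

open Pool.Agent.Lib.MP_de73ed_al

/-- (1) A class `F` is a superradical local formation consisting of soluble groups if and only if
there are a set `om` of primes and, for every `p ∈ om`, a set `π p` of primes containing `p`, such
that `F` is the class of the finite soluble groups `G`, with all prime divisors of the order in
`om`, which have, for every `p ∈ om`, a normal subgroup `N` of order prime to `p` such that `G / N`
is a `π p`-group. (2) For every superradical local formation `F` of finite groups, soluble or not,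
the soluble groups in `F` form a class of this kind. -/
theorem result :
    (∀ F : GrpClass,
      (IsLocal F ∧ Superradical F ∧ ∀ (G : Type) [Group G], F G → Group.IsSolvable G) ↔
        ∃ (om : Set ℕ) (π : ℕ → Set ℕ), (∀ p ∈ om, p.Prime ∧ p ∈ π p) ∧
          ∀ (G : Type) [Group G], F G ↔ SClass om π G) ∧
    (∀ F : GrpClass, IsLocal F → Superradical F →
      ∃ (om : Set ℕ) (π : ℕ → Set ℕ), (∀ p ∈ om, p.Prime ∧ p ∈ π p) ∧
        ∀ (G : Type) [Group G], (F G ∧ Group.IsSolvable G) ↔ SClass om π G) := by
  have hC := centStmt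
  have hCF := cfStmt
  have hT := trivStmt
  have hE := elemStmt
  have hU := upStmt hCF hT
  have hD := downStmt hC
  have hW := wrStmt
  have hFP := fpPropsStmt hU hD hW
  have hFS := fsStmt
  have hSR := srStepStmt hU hD hW hFS hFP
  have hCy := cycStmt
  have hR := rGrpStmt hCy
  have hPL := pLocStmt hT hC
  have hRA := rAllStmt hCy hR hPL hFP hSR
  have hP := stepPStmt hC hCF hT hE
  have hQ := stepQStmt hRA hSR
  have hA := aPartStmt
  have hB := bPartStmt hC hE
  have hSC := sClStmt
  have hSL := sLocStmt hA hB hE hC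
  have hSP := sProdStmt hA hCF hE hSL
  have hSS := sSupStmt hFS hSC hSP
  have hFwd := fwdStmt hC hCF hT hE hPL hP hQ hA hB hSC
  refine ⟨?_, ?_⟩
  · intro F
    constructor
    · rintro ⟨h1, h2, h3⟩
      exact hFwd F h1 h2 h3
    · rintro ⟨om, π, hop, hF⟩
      have hEq : F = SClass om π := by
        funext G inst
        exact propext (hF G)
      subst hEq
      refine ⟨⟨(hSC om π hop).1, f0 om π, (hSL om π hop).1, (hSL om π hop).2⟩, hSS om π hop, ?_⟩
      intro G _ hG
      exact hG.2.1
  · exact genStmt hC hFS hFwd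

end Pool.Agent.Results.MP_de73ed_al.SolubleCase
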