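import Pool.Agent.Lib.MP_de73ed_al_H.Final

set_option linter.all false

/-!
# MP_de73ed_al: the subgroup-closed superradical local formations of finite groups

For a class `F` of finite groups and a prime `p` let `F(p)` be the class of the groups `X` such that
all extensions of `p`-groups by `X` are in `F`, and for a nonabelian simple group `S` let `J(S)` be the
class of the groups `X` such that the regular wreath product `S ≀ X` is in `F`. A local formation `F`
closed under subgroups, with `Out(S)` soluble for all nonabelian simple `S ∈ F` (by the classification
of the finite simple groups this holds for all `F`; it is a hypothesis here), is superradical if and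
only if

* (i) for every prime `p` with `C_p ∈ F`, a group of `F` is in `F(p)` if all its composition factors are;
* (ii) if an almost simple group of `F` with socle `T` is a product of two subgroups with all
  composition factors in `F(p)` then `T ∈ F(p)`;
* (a) a group `G` with a unique minimal normal subgroup `N = S_1 × ⋯ × S_k`, nonabelian, and
  `G / N ∈ F`, is in `F` if and only if the group of automorphisms of `S_1` induced by `G` is in `F`
  and all composition factors of the group of permutations of the `S_i` induced by `G` are in `J(S_1)`;
* (b) if an almost simple group of `F` with socle `T` is a product of two subgroups with all
  composition factors in `J(S)` then `T ∈ J(S)` (for the nonabelian simple `S ∈ F`);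
* (c) for an almost simple group `A` with socle `S` and `A / S ∈ F`: if `A` is the product of two
  subgroups in `F` containing `S` then `A ∈ F`; if `S ∈ F` and all composition factors of `A / S` are
  in `J(S)` then `A ∈ F`.

So `F` is described by the simple groups in the `F(p)` and `J(S)` and by the almost simple groups in
`F`, and the conditions on them only concern factorizations of almost simple groups.
-/

namespace Pool.Agent.Results.MP_de73ed_al.SubgroupClosed

open Pool.Agent.Lib.MP_de73ed_al Pool.Agent.Lib.MP_de73ed_al_H

theorem result (F : GrpClass) (hloc : IsLocal F) (hsub : SubClosed F) (hout : OutSol F) :
    Superradical F ↔ CondI F ∧ CondII F ∧ CondA F ∧ CondB F ∧ CondC F :=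
  (finalStmt F hloc hsub).2 hout

end Pool.Agent.Results.MP_de73ed_al.SubgroupClosed
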