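import Pool.Agent.Lib.MP_de73ed_al_H.Final

set_option linter.all false

/-!
# MP_de73ed_al: a criterion for subgroup-closed local formations to be superradical

For a class `F` of finite groups and a prime `p` let `F(p)` be the class of the groups `X` such that
all extensions of `p`-groups by `X` are in `F`. A local formation `F` closed under subgroups is
superradical if and only if

* (i) for every prime `p` with `C_p ∈ F`, a group of `F` is in `F(p)` if all its composition factors are;
* (ii) if an almost simple group of `F` with socle `T` is a product of two subgroups with all
  composition factors in `F(p)` then `T ∈ F(p)`;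
* (iii) if `G` has a unique minimal normal subgroup `N`, nonabelian, `G / N ∈ F`, and `G = B C` with
  subgroups `B`, `C` in `F` containing `N`, then `G ∈ F`.

No assumption on outer automorphism groups is needed here.
-/

namespace Pool.Agent.Results.MP_de73ed_al.SubgroupClosedCriterion

open Pool.Agent.Lib.MP_de73ed_al Pool.Agent.Lib.MP_de73ed_al_H

theorem result (F : GrpClass) (hloc : IsLocal F) (hsub : SubClosed F) :
    Superradical F ↔ CondI F ∧ CondII F ∧ CondIII F :=
  (finalStmt F hloc hsub).1

end Pool.Agent.Results.MP_de73ed_al.SubgroupClosedCriterion
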